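import Pool.Agent.Helper69.CR.St

/-!
# MP_3dd6d4_an, project P4 (critical mode, `p > 4`, all `n ≥ 3`): static part

Leader: helper71.  The operator part is `Pool/Agent/Helper69/CS/St.lean` (helper69).
Every module `M_XX.lean` proves `theorem hXX : StXX` (possibly from other `StYY`, as said in its row).

Notation: `u_n = (L_{n-1}+L_n)/2`, `v_n = (L_{n-1}-L_n)/2` (argument `s`, `LL j s = P_j(1-2s)`),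
`(1-s) p_n = n u_n`, `v_n' = p_n`, `s u_n' = -n v_n`.
-/

set_option autoImplicit false

open MeasureTheory Set Filter Topology
open scoped ENNReal

noncomputable section

namespace Helper71.P4

open Helper69.CR

/-! ### definitions -/

/-- `u_n`. -/
def uu (n : ℕ) (s : ℝ) : ℝ := (LL (n - 1) s + LL n s) / 2

/-- `v_n`. -/
def vv (n : ℕ) (s : ℝ) : ℝ := (LL (n - 1) s - LL n s) / 2

/-- `X_m = ∫_0^1 s^m (1-s) p_n(s)² ds = n² ∫_0^1 s^m u_n²/(1-s) ds`. -/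
def Xm (n m : ℕ) : ℝ := ∫ s in (0 : ℝ)..1, s ^ m * ((1 - s) * pp n s ^ 2)

/-- nonnegative power series on `[0,1)`. -/
def PS (F : ℝ → ℝ≥0∞) : Prop :=
  ∃ a : ℕ → ℝ≥0∞, ∀ t : ℝ, 0 ≤ t → t < 1 → F t = ∑' m, a m * ENNReal.ofReal (t ^ m)

/-! ### the polynomials `u_n`, `v_n` -/

/-- MODULE U (120 lines). Proof: coefficients. `lc (n-1) i = lc n i (n-i)/(n+i)` (`i ≤ n`), so the coefficient of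
`s^i` in `v_n` is `-i lc n i/(n+i)` and in `u_n` is `n lc n i/(n+i)`; `-i² lc n i/(n+i) = pc n (i-1)` (`i ≥ 1`);
`pc n i - pc n (i-1) = n² lc n i/(n+i)`.  `u_n(1) = 0` from `(1-s) p_n = n u_n`, hence `L_n(1) = -L_{n-1}(1)`,
`L_n(1) = (-1)^n`. -/
def StU : Prop := ∀ n : ℕ, 1 ≤ n →
  Continuous (uu n) ∧ Continuous (vv n) ∧
  (∀ s : ℝ, (1 - s) * pp n s = n * uu n s) ∧
  (∀ s : ℝ, HasDerivAt (vv n) (pp n s) s) ∧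
  (∃ w : ℝ → ℝ, Continuous w ∧ (∀ s : ℝ, HasDerivAt (uu n) (w s) s) ∧
    ∀ s : ℝ, s * w s = -(n : ℝ) * vv n s) ∧
  (∃ f : ℝ → ℝ, Continuous f ∧ ∀ s : ℝ, vv n s = s * f s) ∧
  uu n 0 = 1 ∧ vv n 0 = 0 ∧ uu n 1 = 0 ∧ vv n 1 = (-1) ^ (n + 1) ∧ pp n 0 = n

/-- MODULE X0 (150 lines; may use `StU`, `StA1`, `StA2` of CR). `∫_0^1 (1-s) p_n² = n/2`.
One proof: `∫_0^y p_n(x)² dx = y Σ_{j<n} (2j+1) L_j(y)²` (`StA1` at `s = t = y`), so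
`∫_0^1 (1-s) p_n² = Σ_j (2j+1) ∫_0^1 y L_j(y)² dy`, `L_j(1-y) = (-1)^j L_j(y)`, `∫_0^1 L_j² = 1/(2j+1)`.
Another one: `(1-s) p_n` is orthogonal to degree `< n-1` by `StA2`(1), and `∫ s^n p_n = Σ_j pc n j/(n+j+1)` in closed
form (partial fractions). -/
def StX0 : Prop := ∀ n : ℕ, 1 ≤ n → Xm n 0 = n / 2

/-- MODULE X1 (150 lines; from `StU`). Moment identities.  `x_m = ∫ s^m u²/(1-s) = Xm n m/n²`,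
`y_m = ∫ s^m v²/s` (`m ≥ 1`: polynomial), `z_m = ∫ s^m u v`, `d_m = ∫ s^m u²`.  Integrate
`(s^{m+1} u²)' `, `(s^{m+1} u v)'`, `(s^{m+1}(1-s) v²/s)' = (s^m (1-s) v²)'` over `[0,1]`, with
`s u' = -n v`, `(1-s) v' = n u`:
`(m+1) d_m = 2n z_m`, `(m+1) z_m = n (y_{m+1} - x_{m+1})`, `(m+1) y_{m+1} - m y_m = 2n z_m`.
Eliminating: `x_m = 2(m+1) d_m - ((m+1)³ d_m - m³ d_{m-1})/(2n²)`; and `Xm n m - Xm n (m+1) = n² d_m`. -/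
def StX1 : Prop := ∀ n : ℕ, 1 ≤ n →
  (∀ m : ℕ, Xm n m - Xm n (m + 1) = (n : ℝ) ^ 2 * ∫ s in (0 : ℝ)..1, s ^ m * uu n s ^ 2) ∧
  (∀ m : ℕ, Xm n (m + 1) = 2 * ((m : ℝ) + 2) * (Xm n (m + 1) - Xm n (m + 2)) -
    (((m : ℝ) + 2) ^ 3 * (∫ s in (0 : ℝ)..1, s ^ (m + 1) * uu n s ^ 2) -
      ((m : ℝ) + 1) ^ 3 * ∫ s in (0 : ℝ)..1, s ^ m * uu n s ^ 2) / 2) ∧
  Xm n 0 = 2 * (Xm n 0 - Xm n 1) - (∫ s in (0 : ℝ)..1, uu n s ^ 2) / 2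

/-- MODULE X2 (200 lines; from `StU`). Monotonicity of `λ³ ∫ s^{λ-1} u²` for `λ ≥ 1` (used at integers).
Proof: `F(λ) = λ³ ∫_0^1 s^{λ-1} u² ds`; `u²` is a polynomial, so `F` is `C¹` (finite sum of `a_i λ³/(λ+i)`) and
`F'(λ) = λ² ∫ s^{λ-1} (3 + λ log s) u² ds`.  Put `τ = -log s`, `κ = n² τ s/(1-s)`, `E = (n τ v - u)²`,
`Q(s) = s^λ (E/κ + τ u²)`.  With `s u' = -n v`, `(1-s) v' = n u`, `dτ/ds = -1/s` one has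
`-s dE/ds = κ (2u² + 2 s τ u u')`  (i.e. `dE/dτ = κ (2z - τ dz/dτ)`, `z = u²`) and
`Q'(s) = -s^{λ-1}(3 - λτ) u² + s^{λ-1} (E/κ) (λ + 1/τ - 1/(1-s))`;
`Q → 0` at `s → 0+` (here `λ ≥ 1`) and at `s → 1-`, hence
`∫ s^{λ-1}(3 - λτ) u² = ∫ s^{λ-1} (E/κ)(λ + 1/τ - 1/(1-s)) ds ≥ 0`, because
`1/(1-s) - 1/τ ≤ 1` iff `s τ ≤ 1 - s` (`log(1/s) ≤ 1/s - 1`).
(One can avoid the improper integral: `F'(λ)/λ² ≥` the limit of `Q(ε) - Q(1-ε)`.) -/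
def StX2 : Prop := ∀ n : ℕ, 1 ≤ n → ∀ m : ℕ,
  ((m : ℝ) + 1) ^ 3 * (∫ s in (0 : ℝ)..1, s ^ m * uu n s ^ 2) ≤
    ((m : ℝ) + 2) ^ 3 * ∫ s in (0 : ℝ)..1, s ^ (m + 1) * uu n s ^ 2

/-- MODULE AM (80 lines; from `StX0`, `StX1`, `StX2`). Arcsine majorisation.
Proof: `X_m ≤ 2(m+1)(X_m - X_{m+1})`, i.e. `X_{m+1} ≤ (2m+1)/(2m+2) X_m`. -/
def StAM : Prop := ∀ n : ℕ, 1 ≤ n → ∀ m : ℕ,
  Xm n m ≤ (n : ℝ) / 2 * (Nat.centralBinom m / 4 ^ m)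

/-- MODULE GEN (120 lines; from `StAM`).  Sum over `m` (`lintegral_tsum`), and
`∫_0^1 t^m (t(1-t))^{-1/2} dt = π centralBinom m/4^m` (induction on `m`, or `t = sin²`, Wallis; for `m = 0`: arcsin). -/
def StGEN : Prop := ∀ n : ℕ, 1 ≤ n → ∀ F : ℝ → ℝ≥0∞, PS F →
  ∫⁻ t in Ioo (0 : ℝ) 1, ENNReal.ofReal ((1 - t) * pp n t ^ 2) * F t ≤
    ENNReal.ofReal (n / (2 * Real.pi)) *
      ∫⁻ t in Ioo (0 : ℝ) 1, ENNReal.ofReal ((t * (1 - t)) ^ (-(1 / 2) : ℝ)) * F t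

/-- MODULE PS (150 lines). Power series.  (1): binomial series (`Real.one_add_rpow_hasFPowerSeriesOnBall_zero`
or Taylor coefficients `c(c+1)..(c+m-1)/m!`, uniqueness by an ODE / Abel), (2): Cauchy product in `ℝ≥0∞`,
(3): `(1-tv)^{-3/4}` by (1), `lintegral_tsum` over `v`. -/
def StPS : Prop :=
  (∀ c : ℝ, 0 ≤ c → PS (fun t => ENNReal.ofReal ((1 - t) ^ (-c)))) ∧
  (∀ F G : ℝ → ℝ≥0∞, PS F → PS G → PS (fun t => F t * G t)) ∧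
  PS (fun t => ∫⁻ v in Ioo (0 : ℝ) 1,
    ENNReal.ofReal (v ^ (-(1 / 4) : ℝ) * (1 - t * v) ^ (-(3 / 4) : ℝ)))

/-- MODULE KER (150 lines). Elementary integrals.
(1) `t = 1/(1+r)`: primitive `-4 ((1-t)/t)^{1/4}`.  (2) primitive `-4(1-t)^{1/4}`.  (3) arcsine.
(4) `B(1/2,1/4) = 3 B(1/2,5/4)` (derivative of `t^{1/2}(1-t)^{1/4}`) and Cauchy-Schwarz
`B(1/2,5/4)² ≤ ∫ t^{-1/2} · ∫ t^{-1/2}(1-t)^{1/2} = 2 · π/2`. -/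
def StKER : Prop :=
  (∀ s : ℝ, 0 < s → s < 1 →
    ∫⁻ t in Ioo s 1, ENNReal.ofReal (t ^ (-(5 / 4) : ℝ) * (1 - t) ^ (-(3 / 4) : ℝ)) =
      ENNReal.ofReal (4 * ((1 - s) / s) ^ ((1 / 4) : ℝ))) ∧
  (∫⁻ t in Ioo (0 : ℝ) 1, ENNReal.ofReal ((1 - t) ^ (-(3 / 4) : ℝ)) = 4) ∧
  (∫⁻ t in Ioo (0 : ℝ) 1, ENNReal.ofReal ((t * (1 - t)) ^ (-(1 / 2) : ℝ)) =
    ENNReal.ofReal Real.pi) ∧
  (∫⁻ t in Ioo (0 : ℝ) 1, ENNReal.ofReal (t ^ (-(1 / 2) : ℝ) * (1 - t) ^ (-(3 / 4) : ℝ)) ≤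
    ENNReal.ofReal (3 * Real.sqrt Real.pi))

/-- MODULE J (200 lines; from `StX0`, `StGEN`, `StPS`, `StKER`). `∬_{s<t} |p_n(s) p_n(t)|/t ≤ 2n`.
Proof: `2|p(s)p(t)| ≤ φ p(t)² + φ⁻¹ p(s)²`, `φ = (t/s)^{1/4} ((1-t)/(1-s))^{3/4}`.
Second part (Tonelli, `StKER`(1)): `∫ p(s)² s^{1/4}(1-s)^{3/4} 4((1-s)/s)^{1/4} ds = 4 ∫ (1-s) p² = 2n`.
First part: with `s = tv`, `∫_0^t s^{-1/4}(1-s)^{-3/4} ds = t^{3/4} g(t)`, `g(t) = ∫_0^1 v^{-1/4}(1-tv)^{-3/4} dv`, so it is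
`∫ (1-t) p(t)² F(t) dt`, `F = (1-t)^{-1/4} g(t)` is `PS`; by `StGEN` it is `≤ (n/2π) ∫ t^{-1/2}(1-t)^{-3/4} g(t) dt`
`= (n/2π) ∬_{s<t} t^{-5/4}(1-t)^{-3/4} s^{-1/4}(1-s)^{-3/4} = (n/2π) 4 ∫ (s(1-s))^{-1/2} ds = 2n`. -/
def StJ : Prop := ∀ n : ℕ, 1 ≤ n →
  ∫⁻ t in Ioo (0 : ℝ) 1, ∫⁻ s in Ioo (0 : ℝ) t, ENNReal.ofReal (|pp n s| * |pp n t| / t) ≤
    ENNReal.ofReal (2 * n)

/-- MODULE P1 (80 lines; from `StGEN`, `StPS`, `StKER`). `∫_0^1 |p_n| ≤ 1.85 √n`.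
Proof: `(∫|p|)² ≤ ∫ p² (1-t)^{3/4} · ∫ (1-t)^{-3/4}`, `StGEN` with `F = (1-t)^{-1/4}`:
`≤ 4 (n/2π) 3√π = 6n/√π ≤ 3.3856 n`. -/
def StP1 : Prop := ∀ n : ℕ, 1 ≤ n → ∫ t in (0 : ℝ)..1, |pp n t| ≤ 37 / 20 * Real.sqrt n

/-- MODULE K2 (100 lines; from `StJ`, `StP1`). The constant of the truncated operators:
`K_n² = ∫_0^1 (1 + ∫_s^1 |p_n| dt/t)² ds = 1 + 2∫|p_n| + ∬ |p_n(t) p_n(t')|/max(t,t') ≤ 1 + 3.7 √n + 4n`.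
Proof: expand the square, Tonelli: `∫_0^1 ds ∫_s^1 |p| dt/t = ∫ |p|`, and
`∫_0^1 ds (∫_s^1 |p| dt/t)² = ∬ |p(t) p(t')| min(t,t')/(t t') = 2 ∬_{t'<t} |p(t) p(t')|/t`. -/
def StK2 : Prop := ∀ n : ℕ, 1 ≤ n →
  ∫⁻ s in Ioo (0 : ℝ) 1, (1 + ∫⁻ t in Ioo s 1, ENNReal.ofReal (|pp n t| / t)) ^ 2 ≤
    ENNReal.ofReal (1 + 37 / 10 * Real.sqrt n + 4 * n)

/-! ### numbers -/

/-- MODULE NC (60 lines). Proof: `((k+1-a)/(k+a)) / ((k+1-a₀)/(k+a₀)) ≥ 1` for `a ≤ a₀` and every `k ≥ 1`; `k = 0`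
gives `(p-1)/(p₀-1)`. -/
def StNC : Prop := ∀ (n : ℕ) (p₀ p : ℝ), 1 ≤ n → 2 ≤ p₀ → p₀ ≤ p →
  (p - 1) / (p₀ - 1) * Cn n (1 / p₀) ≤ Cn n (1 / p)

/-- MODULE NM (120 lines). `C_n(1/p)/((p-1) n^{1-2/p})` is nondecreasing for `p ≥ 8`.
Proof: `Cn n x/((1/x-1) n^{1-2x}) = ∏_{k=2}^n 1/φ_k(x)`, `φ_k(x) = (k/(k-1))^{1-2x} (k-1+x)/(k-x)` (`x = 1/p`), and `φ_k` is
nondecreasing on `(0,1/8]`: `(log φ_k)' = -2 log(k/(k-1)) + 1/(k-x) + 1/(k-1+x) ≥ 0`; it is enough at `x = 1/8` (the derivative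
is nonincreasing in `x`), where with `u = k-1/2`, `1/(k-x)+1/(k-1+x) = 2u/(u²-9/64)` and
`log(k/(k-1)) = log((u+1/2)/(u-1/2)) ≤ 1/u + 1/(12u³(1-1/(4u²)))` (or compare derivatives in `u`, both sides `→ 0` at `∞`). -/
def StNM : Prop := ∀ (n : ℕ) (p : ℝ), 1 ≤ n → 8 ≤ p →
  Cn n (1 / 8) / (7 * (n : ℝ) ^ ((3 / 4) : ℝ)) ≤ Cn n (1 / p) / ((p - 1) * (n : ℝ) ^ (1 - 2 / p))

/-- MODULE NP (120 lines; from `StNM`). The numbers for `n ≥ 8` (route PHI), `8B = 1.056 = 132/125`.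
Proof: `((k+7/8)/(k+1/8))⁴ ≥ ((k+1+s)/(k+s))³` with `s = 1/100`, `k ≥ 8` (polynomial), so `Cn n (1/8)⁴/(n+s)³` is
nondecreasing for `n ≥ 8`, hence `Cn n (1/8) ≥ 6.9 n^{3/4}` (`Cn 8 (1/8)² = 1081.9..`, `6.9² 8^{3/2} = 1077.3..`).  By `StNM`,
`Cn n (1/p) ≥ (6.9/7)(p-1) n^{1-2/p}`, and `(K/n²)^{1-2/p} (p/(p-1))² (7/6.9)² ≤ (.6796)^{3/4} (64/49) (7/6.9)² ≤ 1.0067 ≤ 1.056`
(`K = 1 + 3.7√n + 4n ≤ .6796 n²`, decreasing quotient). -/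
def StNP : Prop := ∀ (n : ℕ) (p : ℝ), 8 ≤ n → 8 ≤ p →
  (1 + 37 / 10 * Real.sqrt n + 4 * n) ^ (1 - 2 / p) ≤ 132 / 125 / p ^ 2 * Cn n (1 / p) ^ 2

/-! ### tables `3 ≤ n ≤ 7` -/

/-- coefficients `ρ_k(x)` of the rule S'. -/
structure Tab (n : ℕ) (ν ρ : ℕ → ℝ → ℝ) (M M1 : ℝ) : Prop where
  nonneg : ∀ k x, 0 ≤ ρ k x
  meas : ∀ k, Measurable (ρ k)
  bdd : ∃ C : ℝ, ∀ k x, ρ k x ≤ C
  low : ∀ k x, k ≤ 1 → ρ k x = 0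
  high : ∀ k x, 2 * n - 1 ≤ k → ρ k x = 0
  pos : ∀ k x, 1 ≤ k → k < 2 * n → 0 < x → x < 1 →
    0 ≤ ν k x + (4 * (k : ℝ) ^ 2 - 2) / (4 * (k : ℝ) ^ 2 - 1) * ρ k x -
      ((k : ℝ) + 1) / (2 * k + 1) * ρ (k + 1) x - ((k : ℝ) - 1) / (2 * k - 1) * ρ (k - 1) x
  int0 : IntegrableOn (fun x => (∑ k ∈ Finset.range (2 * n), ρ k x) / x) (Ioo 0 1)
  int1 : IntegrableOn (fun x => (∑ k ∈ Finset.range (2 * n), (k : ℝ) * ρ k x) / x) (Ioo 0 1)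
  le0 : ∫ x in Ioo (0 : ℝ) 1, (∑ k ∈ Finset.range (2 * n), ρ k x) / x ≤ M
  le1 : ∫ x in Ioo (0 : ℝ) 1, (∑ k ∈ Finset.range (2 * n), (k : ℝ) * ρ k x) / x ≤ M1

/-- the numerical conditions for a table. -/
def TNum (n : ℕ) (M M1 : ℝ) : Prop :=
  0 ≤ M ∧ 0 ≤ M1 ∧ ∃ K : ℝ, 2 * M ≤ K ∧ 4 * (37 / 20) ^ 2 * M * M1 ≤ (K - 2 * M) ^ 2 ∧
    2 ^ 4 * (2 * M) * K ^ 3 ≤ (33 / 2000 * Cn n (1 / 8) ^ 2) ^ 4 ∧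
    2 * K ≤ 33 / 8000 * Cn n (1 / 16) ^ 2

/-- MODULES TB (the tables; helper53 `n = 3, 4`, helper16 `n = 5, 6, 7`). -/
def StTB : Prop := ∀ n : ℕ, 3 ≤ n → n ≤ 7 → ∃ M M1 : ℝ, TNum n M M1 ∧
  ∀ ν : ℕ → ℝ → ℝ, NN n ν → ∃ ρ : ℕ → ℝ → ℝ, Tab n ν ρ M M1

/-- MODULE TN (100 lines; from `StNC`). From the numbers of a table to the loss: `p ≥ 8`, `r = p/2`,
`K_r = (2M)^{2/r} K^{1-2/r}` bounds `Σ_k ∫ρ_k dx/x · 2(1+P_k)^{1-2/r}`, `P_k = 1.85√k` (Hölder), and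
`2 K_r ≤ 8B/p² Cn n (1/p)²`: for `p < 16` exponent `≤ 3/4` (`2M ≤ K`) and `StNC` with `p₀ = 8`; for `p ≥ 16` exponent `≤ 1` and
`StNC` with `p₀ = 16`. -/
def StTN : Prop := ∀ (n : ℕ) (M M1 : ℝ), 3 ≤ n → n ≤ 7 → TNum n M M1 → ∀ μ : ℕ → ℝ,
  (∀ k, 0 ≤ μ k) → ∑ k ∈ Finset.range (2 * n), μ k ≤ M →
  ∑ k ∈ Finset.range (2 * n), (k : ℝ) * μ k ≤ M1 → ∀ p : ℝ, 8 ≤ p →
  2 * ∑ k ∈ Finset.range (2 * n), μ k * (2 * (1 + 37 / 20 * Real.sqrt k) ^ (1 - 4 / p)) ≤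
    132 / 125 / p ^ 2 * Cn n (1 / p) ^ 2

end Helper71.P4
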