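import Pool.Agent.Helper71.P4.St
import Pool.Agent.Helper69.CS.St
import Pool.Agent.Helper35.QP.Top
import Pool.Agent.Helper69.CR.M_A1
import Pool.Agent.Helper69.CR.M_A2
import Pool.Agent.Helper69.CR.M_A3
import Pool.Agent.Helper69.CR.M_KR

/-!
# MP_3dd6d4_an, project P4: from the static modules to the nodes of `Helper69.CS`
-/

set_option autoImplicit false

open MeasureTheory Set Filter Topology

noncomputable section

namespace Helper71.P4

open Helper69.CR

/-- the loss of the route PHI, `n ≥ 8`. -/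
theorem loss_phi (hKQ : Helper69.CS.StKQ) (hNP : StNP) (n : ℕ) (p : ℝ) (hn : 8 ≤ n) (hp : 8 ≤ p) :
    Helper69.CS.K2 n ^ (1 - 2 / p) ≤ 132 / 125 / p ^ 2 * Cn n (1 / p) ^ 2 := by
  have h0 : 0 ≤ Helper69.CS.K2 n := by
    unfold Helper69.CS.K2
    exact integral_nonneg fun τ => by positivity
  have h1 : (0 : ℝ) ≤ 1 - 2 / p := by
    rw [sub_nonneg, div_le_one (by linarith)]
    linarith
  exact (Real.rpow_le_rpow h0 (hKQ n (by omega)) h1).trans (hNP n p hn hp)

/-- change of variables `x = e^{-d}`. -/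
theorem cv_exp (g : ℝ → ℝ) :
    (IntegrableOn (fun x => g x / x) (Ioo 0 1) ↔ IntegrableOn (fun d => g (Real.exp (-d))) (Ioi 0)) ∧
    ∫ x in Ioo (0 : ℝ) 1, g x / x = ∫ d in Ioi (0 : ℝ), g (Real.exp (-d)) := by
  have himg : (fun d : ℝ => Real.exp (-d)) '' Ioi 0 = Ioo 0 1 := by
    ext x
    simp only [mem_image, mem_Ioi, mem_Ioo]
    constructor
    · rintro ⟨d, hd, rfl⟩
      exact ⟨Real.exp_pos _, by rw [Real.exp_lt_one_iff]; linarith⟩
    · rintro ⟨h0, h1⟩
      exact ⟨-Real.log x, by have := Real.log_neg h0 h1; linarith, by rw [neg_neg, Real.exp_log h0]⟩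
  have hder : ∀ d ∈ Ioi (0 : ℝ),
      HasDerivWithinAt (fun d : ℝ => Real.exp (-d)) (-Real.exp (-d)) (Ioi 0) d := by
    intro d _
    have := ((hasDerivAt_neg d).exp).hasDerivWithinAt (s := Ioi 0)
    simpa using this
  have hinj : InjOn (fun d : ℝ => Real.exp (-d)) (Ioi 0) := by
    intro a _ b _ h
    have := Real.exp_injective h
    linarith
  have h1 := integral_image_eq_integral_abs_deriv_smul measurableSet_Ioi hder hinj (fun x => g x / x)
  have h2 := integrableOn_image_iff_integrableOn_abs_deriv_smul measurableSet_Ioi hder hinj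
    (fun x => g x / x)
  rw [himg] at h1 h2
  have e : (fun d : ℝ => |(-Real.exp (-d))| • (g (Real.exp (-d)) / Real.exp (-d)))
      = fun d => g (Real.exp (-d)) := by
    funext d
    rw [abs_neg, abs_of_pos (Real.exp_pos _), smul_eq_mul]
    field_simp
  rw [e] at h1 h2
  exact ⟨h2, h1⟩

/-- a table gives the structure `TD` and its loss. -/
theorem tab_TD {n : ℕ} {ν ρ : ℕ → ℝ → ℝ} {M M1 : ℝ} (hn : 3 ≤ n) (hn7 : n ≤ 7) (hν : NN n ν)
    (hT : Tab n ν ρ M M1) (hN : TNum n M M1) (hTN : StTN) (hP1 : StP1) :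
    Helper69.CS.TD n ν ρ (fun k => 37 / 20 * Real.sqrt k) ∧
    ∀ p : ℝ, 8 ≤ p → Helper69.CS.lossT n ρ (fun k => 37 / 20 * Real.sqrt k) p ≤
      132 / 125 / p ^ 2 * Cn n (1 / p) ^ 2 := by
  have hP : ∀ k : ℕ, 2 ≤ k → ∫ s in (0 : ℝ)..1, |pp k s| ≤ 37 / 20 * Real.sqrt k :=
    fun k hk => hP1 k (by omega)
  obtain ⟨C, hC⟩ := hT.bdd
  refine ⟨⟨hν, fun k x _ _ => hT.nonneg k x, hT.meas, ⟨C, fun k x _ _ => hC k x⟩, ?_, ?_, hP⟩, ?_⟩
  · rintro k x (hk | hk)
    · exact hT.low k x hk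
    · exact hT.high k x (by omega)
  · intro k hk hk' x hx hx'
    exact hT.pos k x hk hk' hx hx'
  · intro p hp
    -- integrability of each `ρ_k/x`
    have hint : ∀ k ∈ Finset.range (2 * n), IntegrableOn (fun x => ρ k x / x) (Ioo 0 1) := by
      intro k hk
      refine Integrable.mono' hT.int0 ((hT.meas k).div measurable_id).aestronglyMeasurable ?_
      filter_upwards [ae_restrict_mem measurableSet_Ioo] with x hx
      rw [Real.norm_of_nonneg (div_nonneg (hT.nonneg k x) hx.1.le)]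
      exact div_le_div_of_nonneg_right
        (Finset.single_le_sum (f := fun k => ρ k x) (fun i _ => hT.nonneg i x) hk) hx.1.le
    set μ : ℕ → ℝ := fun k => ∫ x in Ioo (0 : ℝ) 1, ρ k x / x with hμ
    have hμ0 : ∀ k, 0 ≤ μ k := by
      intro k
      refine setIntegral_nonneg measurableSet_Ioo fun x hx => ?_
      exact div_nonneg (hT.nonneg k x) hx.1.le
    have hs0 : ∑ k ∈ Finset.range (2 * n), μ k ≤ M := by
      refine le_trans (le_of_eq ?_) hT.le0
      rw [hμ, ← integral_finsetSum _ hint]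
      refine integral_congr_ae (Eventually.of_forall fun x => ?_)
      simp only [Finset.sum_div]
    have hs1 : ∑ k ∈ Finset.range (2 * n), (k : ℝ) * μ k ≤ M1 := by
      refine le_trans (le_of_eq ?_) hT.le1
      have : ∀ k ∈ Finset.range (2 * n), IntegrableOn (fun x => (k : ℝ) * (ρ k x / x)) (Ioo 0 1) :=
        fun k hk => (hint k hk).const_mul _
      rw [hμ]
      simp only [← integral_const_mul]
      rw [← integral_finsetSum _ this]
      refine integral_congr_ae (Eventually.of_forall fun x => ?_)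
      simp only [Finset.sum_div, mul_div_assoc]
    have hmain := hTN n M M1 hn hn7 hN μ hμ0 hs0 hs1 p hp
    refine le_trans ?_ hmain
    unfold Helper69.CS.lossT
    refine mul_le_mul_of_nonneg_left ?_ (by norm_num)
    have hr : ∀ k : ℕ, (0 : ℝ) ≤ 2 * (1 + 37 / 20 * Real.sqrt k) ^ (1 - 4 / p) := fun k => by positivity
    have hd : ∀ k ∈ Finset.range (2 * n), IntegrableOn (fun d => ρ k (Real.exp (-d))) (Ioi 0) :=
      fun k hk => (cv_exp (ρ k)).1.1 (hint k hk)
    have hd' : ∀ k ∈ Finset.range (2 * n), IntegrableOn (fun d => ρ k (Real.exp (-d)) *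
        (2 * (1 + 37 / 20 * Real.sqrt k) ^ (1 - 4 / p))) (Ioi 0) :=
      fun k hk => (hd k hk).mul_const _
    have e : ∑ k ∈ Finset.range (2 * n), μ k * (2 * (1 + 37 / 20 * Real.sqrt k) ^ (1 - 4 / p))
        = ∫ d in Ioi (0 : ℝ), ∑ k ∈ Finset.range (2 * n), ρ k (Real.exp (-d)) *
          (2 * (1 + 37 / 20 * Real.sqrt k) ^ (1 - 4 / p)) := by
      rw [integral_finsetSum _ hd']
      refine Finset.sum_congr rfl fun k hk => ?_
      rw [integral_mul_const, hμ]
      simp only
      rw [(cv_exp (ρ k)).2]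
    rw [e]
    refine integral_mono_of_nonneg ?_ (integrable_finsetSum _ hd') ?_
    · refine Eventually.of_forall fun d => ?_
      exact mul_nonneg (Real.exp_pos _).le (Finset.sum_nonneg fun k _ =>
        mul_nonneg (hT.nonneg k _) (hr k))
    · filter_upwards [ae_restrict_mem measurableSet_Ioi] with d hd0
      have h1 : Real.exp (-d / p) ≤ 1 := by
        rw [Real.exp_le_one_iff]
        have : 0 ≤ d / p := div_nonneg (le_of_lt hd0) (by linarith)
        rw [neg_div]
        linarith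
      have h2 : 0 ≤ ∑ k ∈ Finset.range (2 * n), ρ k (Real.exp (-d)) *
          (2 * (1 + 37 / 20 * Real.sqrt k) ^ (1 - 4 / p)) :=
        Finset.sum_nonneg fun k _ => mul_nonneg (hT.nonneg k _) (hr k)
      calc _ ≤ 1 * ∑ k ∈ Finset.range (2 * n), ρ k (Real.exp (-d)) *
          (2 * (1 + 37 / 20 * Real.sqrt k) ^ (1 - 4 / p)) := mul_le_mul_of_nonneg_right h1 h2
        _ = _ := one_mul _

/-- every `n ≥ 3` has a node with small loss. -/
theorem small_all (hPN : Helper69.CS.StPN) (hTN' : Helper69.CS.StTN) (hKQ : Helper69.CS.StKQ)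
    (hNP : StNP) (hTB : StTB) (hTN : StTN) (hP1 : StP1) (n : ℕ) (hn : 3 ≤ n) :
    Helper69.CS.Small (fun p => 132 / 125 / p ^ 2) n := by
  rcases le_or_gt 8 n with h8 | h8
  · obtain ⟨c, hc⟩ := hPN n (by omega)
    refine ⟨0, _, c, hc, ?_, ?_⟩
    · exact hc.Kn 8 (by norm_num)
    · intro p hp
      rw [sub_zero]
      exact loss_phi hKQ hNP n p h8 hp
  · obtain ⟨M, M1, hN, hρ⟩ := hTB n hn (by omega)
    obtain ⟨ν, hν⟩ := hA3 Pool.Agent.Helper35.QP.hQ hA1 (hA2 hKR) n (by omega)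
    obtain ⟨ρ, hT⟩ := hρ ν hν
    obtain ⟨hTD, hL⟩ := tab_TD hn (by omega) hν hT hN hTN hP1
    obtain ⟨h0, c, hc⟩ := hTN' n ν ρ _ (by omega) hTD
    refine ⟨1, _, c, hc, ?_, ?_⟩
    · have := h0 8
      linarith
    · intro p hp
      simp only [add_sub_cancel_left]
      exact hL p hp

end Helper71.P4
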