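import Pool.Agent.Helper71.P4.St
import Pool.Agent.Helper2.P4M.M_U
import Pool.Agent.Helper60.P4M.M_X1
import Pool.Agent.Helper67.P4M.M_X2
import Pool.Agent.Helper48.P4M.M_AM
import Pool.Agent.Helper84.P4M.M_GEN
import Pool.Agent.Helper92.P4M.M_KER
import Pool.Agent.Helper89.P4M.M_P1
import Pool.Agent.Helper94.P4M.M_J
import Pool.Agent.Helper9.P4M.M_NC
import Pool.Agent.Helper7.P4M.M_NM
import Pool.Agent.Helper91.P4M.M_NP
import Pool.Agent.Helper68.P4M.M_TN
import Pool.Agent.Helper53.P4T.Top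

/-!
# Project P4 (MP_3dd6d4_an): the static part, assembled (helper71)
-/

set_option autoImplicit false

namespace Helper71.P4

theorem allK2 (X0 : StX0) (PS' : StPS) (K2' : StJ → StP1 → StK2) : StK2 := by
  have X1 : StX1 := hX1 hU
  have X2 : StX2 := hX2 hU
  have AM : StAM := hAM X0 X1 X2
  have GEN : StGEN := hGEN AM
  have P1 : StP1 := hP1 GEN PS' hKER
  have J : StJ := hJ X0 GEN PS' hKER
  exact K2' J P1

theorem allNP : StNP := hNP hNM

theorem allTN : StTN := hTN hNC

theorem allTB : StTB := Helper53.P4T.hTB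

end Helper71.P4
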